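import Mathlib

/-!
# A stable continuous theory without enough d-definable sets: definitions and statements
-/

set_option autoImplicit false

open Cardinal

namespace Pool.Agent.N636.DD

/-- (relational) signatures of continuous logic, with moduli of uniform continuity -/
structure Sig where
  /-- predicate symbols -/
  Pr : Type
  /-- arities -/
  ar : Pr → ℕ
  /-- moduli of uniform continuity -/
  md : Pr → ℝ → ℝ
  md_pos : ∀ P ε, 0 < ε → 0 < md P ε

/-- metric structures: complete metric spaces of diameter at most 1 with uniformly continuous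
`[0,1]`-valued predicates -/
structure MS (S : Sig) where
  /-- universe -/
  X : Type
  [met : MetricSpace X]
  [cpl : CompleteSpace X]
  [ne : Nonempty X]
  diam : ∀ x y : X, dist x y ≤ 1
  /-- interpretation of the predicate symbols -/
  I : (P : S.Pr) → (Fin (S.ar P) → X) → ℝ
  I_mem : ∀ P x, I P x ∈ Set.Icc (0 : ℝ) 1
  I_uc : ∀ P ε, 0 < ε → ∀ x y, (∀ i, dist (x i) (y i) < S.md P ε) → |I P x - I P y| ≤ ε

attribute [instance] MS.met MS.cpl MS.ne

/-- formulas of continuous logic with free variables in `Fin k`: the connectives are all continuous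
functions `[0,1]^n → [0,1]`, the quantifiers are `sup` and `inf` -/
inductive Fm (S : Sig) : ℕ → Type
  | dst {k : ℕ} : Fin k → Fin k → Fm S k
  | pr {k : ℕ} (P : S.Pr) : (Fin (S.ar P) → Fin k) → Fm S k
  | con {k : ℕ} (n : ℕ) (u : (Fin n → ℝ) → ℝ) (hu : Continuous u)
      (hI : ∀ x, (∀ i, x i ∈ Set.Icc (0 : ℝ) 1) → u x ∈ Set.Icc (0 : ℝ) 1) :
      (Fin n → Fm S k) → Fm S k
  | sup {k : ℕ} : Fm S (k + 1) → Fm S k
  | inf {k : ℕ} : Fm S (k + 1) → Fm S k

/-- value of a formula -/
noncomputable def val {S : Sig} (M : MS S) : {k : ℕ} → Fm S k → (Fin k → M.X) → ℝ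
  | _, .dst i j, x => dist (x i) (x j)
  | _, .pr P f, x => M.I P fun i => x (f i)
  | _, .con _ u _ _ φ, x => u fun i => val M (φ i) x
  | _, .sup φ, x => ⨆ y : M.X, val M φ (Matrix.vecCons y x)
  | _, .inf φ, x => ⨅ y : M.X, val M φ (Matrix.vecCons y x)

/-- `M` is a model of the set `T` of sentences (the sentence `σ` stands for the condition
`σ = 0`) -/
def IsModel {S : Sig} (T : Set (Fm S 0)) (M : MS S) : Prop := ∀ σ ∈ T, val M σ ![] = 0

/-- no formula has the order property: stable theories -/
def Stable {S : Sig} (T : Set (Fm S 0)) : Prop :=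
  ∀ M : MS S, IsModel T M → ∀ (k l : ℕ) (φ : Fm S (k + l)) (ε : ℝ), 0 < ε →
    ¬ ∃ (a : ℕ → Fin k → M.X) (b : ℕ → Fin l → M.X), ∀ i j, i < j →
      ε ≤ |val M φ (Fin.append (a i) (b j)) - val M φ (Fin.append (a j) (b i))|

/-- elementary embeddings -/
def Elem {S : Sig} (M N : MS S) (j : M.X → N.X) : Prop :=
  ∀ (k : ℕ) (φ : Fm S k) (x : Fin k → M.X), val N φ (j ∘ x) = val M φ x

/-- the complete `n`-types over `A`, as functions giving the values of the formulas with parameters
in `A` -/
def Types {S : Sig} (M : MS S) (A : Set M.X) (n : ℕ) :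
    Set ((Σ m : ℕ, Fm S (n + m) × (Fin m → A)) → ℝ) :=
  {q | ∃ (N : MS S) (j : M.X → N.X), Elem M N j ∧ ∃ c : Fin n → N.X,
    q = fun t => val N t.2.1 (Fin.append c fun i => j (t.2.2 i))}

/-- the number of types over a set of `lam` parameters is at most `lam` (so the density character
of the space of types is at most `lam`) -/
def FewTypes {S : Sig} (T : Set (Fm S 0)) (lam : Cardinal.{0}) : Prop :=
  ∀ M : MS S, IsModel T M → ∀ A : Set M.X, #A ≤ lam → ∀ n : ℕ, #(Types M A n) ≤ lam

/-- definable predicates over `A`: uniform limits of formulas with parameters in `A` -/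
def DPred {S : Sig} (M : MS S) (A : Set M.X) {n : ℕ} (f : (Fin n → M.X) → ℝ) : Prop :=
  ∀ ε : ℝ, 0 < ε → ∃ (m : ℕ) (φ : Fm S (n + m)) (a : Fin m → M.X), (∀ i, a i ∈ A) ∧
    ∀ x, |f x - val M φ (Fin.append x a)| ≤ ε

/-- `D` is d-definable in `M` over `A`: the distance to `D` (for the maximum metric) is a definable
predicate over `A`; the empty set is allowed -/
def DDef {S : Sig} (M : MS S) (A : Set M.X) {n : ℕ} (D : Set (Fin n → M.X)) : Prop :=
  IsClosed D ∧ (D = ∅ ∨ DPred M A fun x => Metric.infDist x D)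

/-- `x` and `y` have the same complete type over `A` -/
def SameType {S : Sig} (M : MS S) (A : Set M.X) {n : ℕ} (x y : Fin n → M.X) : Prop :=
  ∀ (m : ℕ) (φ : Fm S (n + m)) (a : Fin m → M.X), (∀ i, a i ∈ A) →
    val M φ (Fin.append x a) = val M φ (Fin.append y a)

/-! ### The example -/

/-- one unary predicate -/
def S₀ : Sig where
  Pr := Unit
  ar _ := 1
  md _ _ := 1
  md_pos _ _ _ := one_pos

/-- `[0,1] × ℕ` with the discrete metric -/
def X₀ : Type := Set.Icc (0 : ℝ) 1 × ℕ

open Classical in
/-- discrete metric -/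
noncomputable instance : MetricSpace X₀ where
  dist x y := if x = y then 0 else 1
  dist_self x := by simp
  dist_comm x y := by simp [eq_comm]
  dist_triangle x y z := by
    by_cases h1 : x = z
    · simp only [h1, if_true]; positivity
    · by_cases h2 : x = y
      · subst h2; simp [h1]
      · simp only [h1, h2, if_false]
        have : (0 : ℝ) ≤ if y = z then 0 else 1 := by split <;> norm_num
        linarith
  eq_of_dist_eq_zero {x y} h := by
    by_contra hne
    simp [hne] at h

lemma dist_X₀ {x y : X₀} (h : x ≠ y) : dist x y = 1 := by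
  classical
  change (if x = y then (0 : ℝ) else 1) = 1
  rw [if_neg h]

instance : Nonempty X₀ := ⟨(⟨0, by simp⟩, 0)⟩

instance : CompleteSpace X₀ := by
  apply Metric.complete_of_cauchySeq_tendsto
  intro u hu
  obtain ⟨N, hN⟩ := Metric.cauchySeq_iff'.1 hu 1 one_pos
  refine ⟨u N, tendsto_const_nhds.congr' ?_⟩
  filter_upwards [Filter.eventually_ge_atTop N] with n hn
  have h := hN n hn
  by_contra hne
  rw [dist_X₀ (fun h => hne h.symm)] at h
  exact lt_irrefl _ h

/-- `[0,1] × ℕ` with the discrete metric and the first coordinate as predicate -/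
noncomputable def M₀ : MS S₀ where
  X := X₀
  diam x y := by
    by_cases h : x = y
    · subst h; simp
    · rw [dist_X₀ h]
  I _ x := ((x (0 : Fin 1)).1 : ℝ)
  I_mem _ x := (x (0 : Fin 1)).1.2
  I_uc _ ε hε x y h := by
    have h0 := h (0 : Fin 1)
    by_cases he : x (0 : Fin 1) = y (0 : Fin 1)
    · rw [he]; simpa using hε.le
    · rw [dist_X₀ he] at h0
      exact absurd h0 (lt_irrefl _)

/-- its complete theory -/
def T₀ : Set (Fm S₀ 0) := {σ | val M₀ σ ![] = 0}

/-- value of the predicate at a point -/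
def pv (N : MS S₀) (x : N.X) : ℝ := N.I () fun _ => x

/-- what we use of the models of `T₀` -/
def Good (N : MS S₀) : Prop :=
  (∀ x y : N.X, dist x y = 0 ∨ dist x y = 1) ∧
  ∀ (n : ℕ) (x : Fin n → N.X) (r ε : ℝ), r ∈ Set.Icc (0 : ℝ) 1 → 0 < ε →
    ∃ y : N.X, (∀ i, y ≠ x i) ∧ |pv N y - r| < ε

/-- GD: models of the theory are good -/
def S_GD : Prop := ∀ N : MS S₀, IsModel T₀ N → Good N

/-- QE: the value of a formula is a continuous function of the values of the predicate, for each
pattern of equalities -/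
def S_QE : Prop := ∀ (k : ℕ) (φ : Fm S₀ k) (E : Fin k → Fin k → Prop),
  ∃ G : (Fin k → ℝ) → ℝ, Continuous G ∧ ∀ N : MS S₀, Good N → ∀ x : Fin k → N.X,
    (∀ i j, x i = x j ↔ E i j) → val N φ x = G fun i => pv N (x i)

/-- OP: no order property -/
def S_OP : Prop := Stable T₀

/-- FT: few types -/
def S_FT : Prop := ∀ lam : Cardinal.{0}, 2 ^ ℵ₀ ≤ lam → FewTypes T₀ lam

/-- ND: no non-trivial d-definable sets of elements of `M₀` over the empty set -/
def S_ND : Prop := ∀ D : Set (Fin 1 → M₀.X), DDef M₀ ∅ D → D = ∅ ∨ D = Set.univ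

end Pool.Agent.N636.DD
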