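import Mathlib
import Pool.Agent.N636.DD.Stm

set_option autoImplicit false

open Cardinal

namespace Pool.Agent.N636.DD

/-- a point of `M₀` with value `r` -/
noncomputable def pt (r : Set.Icc (0 : ℝ) 1) : Fin 1 → M₀.X := fun _ => ((r, 0) : X₀)

theorem t_asm : S_GD → S_QE → S_OP → S_FT → S_ND →
    ∃ (S : Sig) (T : Set (Fm S 0)), Stable T ∧
      (∀ lam : Cardinal.{0}, 2 ^ ℵ₀ ≤ lam → FewTypes T lam) ∧
      ∃ M : MS S, IsModel T M ∧ ∃ b : Fin 1 → M.X,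
        ∀ F : Set (Set (Fin 1 → M.X)), (∀ D ∈ F, DDef M ∅ D) →
          {x | SameType M ∅ x b} ≠ ⋂₀ F := by
  intro hGD hQE hOP hFT hND
  refine ⟨S₀, T₀, hOP, hFT, M₀, fun σ hσ => hσ, pt ⟨0, by simp⟩, ?_⟩
  intro F hF heq
  have h1 : pt ⟨0, by simp⟩ ∈ ⋂₀ F := by
    rw [← heq]
    intro m φ a _
    rfl
  have h2 : ∀ x : Fin 1 → M₀.X, x ∈ ⋂₀ F := by
    intro x D hD
    rcases hND D (hF D hD) with h | h
    · exact absurd (h1 D hD) (by rw [h]; exact fun h => h)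
    · rw [h]; trivial
  have h3 := h2 (pt ⟨1, by simp⟩)
  rw [← heq] at h3
  have h4 := h3 0 (.pr () fun _ => (0 : Fin 1)) (fun i => i.elim0) (fun i => i.elim0)
  have h5 : ((1 : ℝ)) = 0 := h4
  exact one_ne_zero h5

end Pool.Agent.N636.DD
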