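import Mathlib
import Pool.Agent.N636.DD.Stm

/-!
# Few types
-/

set_option autoImplicit false

open Cardinal

namespace Pool.Agent.N636.DD

namespace P_FT

lemma elem_dist {M N : MS S₀} {j : M.X → N.X} (h : Elem M N j) (x y : M.X) :
    dist (j x) (j y) = dist x y := by
  have h1 := h 2 (Fm.dst 0 1) ![x, y]
  simpa [val] using h1

lemma elem_inj {M N : MS S₀} {j : M.X → N.X} (h : Elem M N j) {x y : M.X} (he : j x = j y) :
    x = y := by
  have h1 := elem_dist h x y
  rw [he, dist_self] at h1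
  exact dist_eq_zero.1 h1.symm

lemma elem_pv {M N : MS S₀} {j : M.X → N.X} (h : Elem M N j) (x : M.X) :
    pv N (j x) = pv M x := by
  have h1 := h 1 (Fm.pr () fun _ => 0) ![x]
  exact h1

lemma elem_model {M N : MS S₀} {j : M.X → N.X} (h : Elem M N j) (hM : IsModel T₀ M) :
    IsModel T₀ N := by
  intro σ hσ
  have h1 := h 0 σ ![]
  rw [hM σ hσ] at h1
  rw [← h1]
  congr 1
  funext i
  exact i.elim0

/-- the data of a type -/
abbrev Dt (M : MS S₀) (A : Set M.X) (n : ℕ) : Type :=
  (Fin n → Option A) × (Fin n → Fin n → Prop) × (Fin n → ℝ)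

/-- the relation between a type and its data -/
def Re (M : MS S₀) (A : Set M.X) (n : ℕ) (q : (Σ m : ℕ, Fm S₀ (n + m) × (Fin m → A)) → ℝ)
    (d : Dt M A n) : Prop :=
  ∃ (N : MS S₀) (j : M.X → N.X), Elem M N j ∧ ∃ c : Fin n → N.X,
    (q = fun t => val N t.2.1 (Fin.append c fun i => j (t.2.2 i))) ∧
    (∀ (i : Fin n) (a : A), c i = j a ↔ d.1 i = some a) ∧
    (∀ i i' : Fin n, c i = c i' ↔ d.2.1 i i') ∧ ∀ i, pv N (c i) = d.2.2 i

open Classical in
lemma exists_data (M : MS S₀) (A : Set M.X) (n : ℕ)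
    (q : (Σ m : ℕ, Fm S₀ (n + m) × (Fin m → A)) → ℝ) (hq : q ∈ Types M A n) :
    ∃ d : Dt M A n, Re M A n q d := by
  obtain ⟨N, j, hj, c, hc⟩ := hq
  refine ⟨(fun i => if h : ∃ a : A, c i = j a then some h.choose else none,
    fun i i' => c i = c i', fun i => pv N (c i)), N, j, hj, c, hc, ?_, fun _ _ => Iff.rfl,
    fun _ => rfl⟩
  intro i a
  by_cases h : ∃ a : A, c i = j a
  · simp only [h, dif_pos, Option.some.injEq]
    constructor
    · intro h1
      have h2 : j a = j h.choose := h1.symm.trans h.choose_spec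
      exact (Subtype.ext (elem_inj hj h2)).symm
    · intro h1
      rw [← h1]
      exact h.choose_spec
  · simp only [h, dif_neg, not_false_eq_true, reduceCtorEq, iff_false]
    exact fun h1 => h ⟨a, h1⟩

lemma eq_of_data (hGD : S_GD) (hQE : S_QE) (M : MS S₀) (hM : IsModel T₀ M) (A : Set M.X) (n : ℕ)
    (q q' : (Σ m : ℕ, Fm S₀ (n + m) × (Fin m → A)) → ℝ) (d : Dt M A n)
    (h : Re M A n q d) (h' : Re M A n q' d) : q = q' := by
  obtain ⟨N, j, hj, c, rfl, h1, h2, h3⟩ := h
  obtain ⟨N', j', hj', c', rfl, h1', h2', h3'⟩ := h'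
  have hN := hGD N (elem_model hj hM)
  have hN' := hGD N' (elem_model hj' hM)
  funext t
  obtain ⟨m, φ, a⟩ := t
  show val N φ (Fin.append c fun i => j (a i)) = val N' φ (Fin.append c' fun i => j' (a i))
  obtain ⟨G, -, hG⟩ := hQE (n + m) φ (fun u v => (Fin.append c fun i => j (a i)) u =
    (Fin.append c fun i => j (a i)) v)
  rw [hG N hN _ (fun _ _ => Iff.rfl), hG N' hN' (Fin.append c' fun i => j' (a i)) ?_]
  · congr 1
    funext u
    refine Fin.addCases (fun i => ?_) (fun k => ?_) u
    · rw [Fin.append_left, Fin.append_left, h3, h3']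
    · rw [Fin.append_right, Fin.append_right, elem_pv hj, elem_pv hj']
  · intro u v
    refine Fin.addCases (fun i => ?_) (fun k => ?_) u
    · refine Fin.addCases (fun i' => ?_) (fun k' => ?_) v
      · simp only [Fin.append_left]
        rw [h2, h2']
      · simp only [Fin.append_left, Fin.append_right]
        rw [h1, h1']
    · refine Fin.addCases (fun i' => ?_) (fun k' => ?_) v
      · simp only [Fin.append_left, Fin.append_right]
        rw [eq_comm, h1', ← h1, eq_comm]
      · simp only [Fin.append_right]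
        constructor
        · intro h; rw [elem_inj hj' h]
        · intro h; rw [elem_inj hj h]

lemma card_pow {α : Type} {lam : Cardinal.{0}} (hl : ℵ₀ ≤ lam) (h : #α ≤ lam) (n : ℕ) :
    #(Fin n → α) ≤ lam := by
  have h1 : #(Fin n → α) = #α ^ (n : Cardinal.{0}) := by
    rw [← Cardinal.mk_fin n, Cardinal.power_def]
  rw [h1]
  refine le_trans (Cardinal.power_le_power_right h) ?_
  rw [Cardinal.power_natCast]
  exact Cardinal.power_nat_le hl

lemma card_prod {α β : Type} {lam : Cardinal.{0}} (hl : ℵ₀ ≤ lam) (h : #α ≤ lam) (h' : #β ≤ lam) :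
    #(α × β) ≤ lam := by
  rw [Cardinal.mk_prod, Cardinal.lift_id, Cardinal.lift_id]
  calc #α * #β ≤ lam * lam := mul_le_mul' h h'
    _ = lam := Cardinal.mul_eq_self hl

end P_FT

open P_FT in
theorem t_ft : S_GD → S_QE → S_FT := by
  intro hGD hQE lam hlam M hM A hA n
  have hl : ℵ₀ ≤ lam := (Cardinal.cantor ℵ₀).le.trans hlam
  have hD : #(Dt M A n) ≤ lam := by
    refine card_prod hl (card_pow hl ?_ n) (card_prod hl ?_ (card_pow hl ?_ n))
    · rw [Cardinal.mk_option]
      calc #A + 1 ≤ lam + lam := add_le_add hA (Cardinal.one_le_aleph0.trans hl)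
        _ = lam := Cardinal.add_eq_self hl
    · exact (Cardinal.lt_aleph0_of_finite _).le.trans hl
    · rw [Cardinal.mk_real]
      exact hlam
  refine le_trans ?_ hD
  choose F hF using fun q : Types M A n => exists_data M A n q.1 q.2
  refine Cardinal.mk_le_of_injective (f := F) ?_
  intro q q' h
  apply Subtype.ext
  exact eq_of_data hGD hQE M hM A n q.1 q'.1 (F q) (hF q) (by rw [h]; exact hF q')

end Pool.Agent.N636.DD
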