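import Mathlib
import Pool.Agent.N636.DD.Stm

/-!
# Project DD (helper636), part GD: models of the theory are good (helper492)
-/

set_option autoImplicit false

namespace Pool.Agent.N636.DD

namespace P_GD

/-- Values are in the unit interval. -/
theorem val_mem {S : Sig} (M : MS S) {k : ℕ} (φ : Fm S k) :
    ∀ x : Fin k → M.X, val M φ x ∈ Set.Icc (0 : ℝ) 1 := by
  induction φ with
  | dst i j => exact fun x => ⟨dist_nonneg, M.diam _ _⟩
  | pr P f => exact fun x => M.I_mem P _
  | con n u hu hI φ ih => exact fun x => hI _ fun i => ih i x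
  | sup φ ih =>
    intro x
    refine ⟨Real.iSup_nonneg fun y => (ih _).1, ciSup_le fun y => (ih _).2⟩
  | inf φ ih =>
    intro x
    refine ⟨le_ciInf fun y => (ih _).1, ?_⟩
    obtain ⟨y⟩ := M.ne
    exact (ciInf_le ⟨0, by rintro _ ⟨z, rfl⟩; exact (ih _).1⟩ y).trans (ih _).2

theorem le_sup {S : Sig} (M : MS S) {k : ℕ} (φ : Fm S (k + 1)) (x : Fin k → M.X) (y : M.X) :
    val M φ (Matrix.vecCons y x) ≤ val M (.sup φ) x :=
  le_ciSup (f := fun y => val M φ (Matrix.vecCons y x))
    ⟨1, by rintro _ ⟨z, rfl⟩; exact (val_mem M φ _).2⟩ y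

theorem sup_eq_zero {S : Sig} (M : MS S) {k : ℕ} (φ : Fm S (k + 1)) (x : Fin k → M.X) :
    val M (.sup φ) x = 0 ↔ ∀ y, val M φ (Matrix.vecCons y x) = 0 := by
  constructor
  · intro h y
    refine le_antisymm ?_ (val_mem M φ _).1
    rw [← h]
    exact le_sup M φ x y
  · intro h
    change (⨆ y : M.X, val M φ (Matrix.vecCons y x)) = 0
    simp only [h]
    exact ciSup_const

/-- The outer suprema. -/
def supn {S : Sig} : (n : ℕ) → Fm S n → Fm S 0
  | 0, φ => φ
  | n + 1, φ => supn n (.sup φ)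

theorem supn_eq_zero {S : Sig} (M : MS S) : ∀ (n : ℕ) (φ : Fm S n),
    val M (supn n φ) ![] = 0 ↔ ∀ x, val M φ x = 0
  | 0, φ => by
    constructor
    · intro h x
      have hx : x = ![] := Subsingleton.elim _ _
      rw [hx]
      exact h
    · intro h
      exact h _
  | n + 1, φ => by
    change val M (supn n (.sup φ)) ![] = 0 ↔ _
    rw [supn_eq_zero M n (.sup φ)]
    constructor
    · intro h x
      have h1 := (sup_eq_zero M φ (Matrix.vecTail x)).1 (h _) (Matrix.vecHead x)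
      rwa [Matrix.cons_head_tail] at h1
    · intro h x
      exact (sup_eq_zero M φ x).2 fun y => h _

/-- The connective of the first sentence. -/
def u1 (v : Fin 1 → ℝ) : ℝ := max 0 (min (v 0) (1 - v 0))

theorem u1_cont : Continuous u1 := by
  unfold u1
  fun_prop

theorem u1_mem (x : Fin 1 → ℝ) (hx : ∀ i, x i ∈ Set.Icc (0 : ℝ) 1) : u1 x ∈ Set.Icc (0 : ℝ) 1 :=
  ⟨le_max_left _ _, max_le zero_le_one ((min_le_left _ _).trans (hx 0).2)⟩

/-- The formula of the first sentence. -/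
def f1 : Fm S₀ 2 := .con 1 u1 u1_cont u1_mem fun _ => .dst 0 1

/-- The connective of the second sentences. -/
def u2 (r : ℝ) (n : ℕ) (v : Fin (n + 1) → ℝ) : ℝ :=
  min 1 (|v 0 - r| + ∑ i : Fin n, max 0 (1 - v i.succ))

theorem u2_cont (r : ℝ) (n : ℕ) : Continuous (u2 r n) := by
  unfold u2
  fun_prop

theorem u2_mem (r : ℝ) (n : ℕ) (x : Fin (n + 1) → ℝ) : u2 r n x ∈ Set.Icc (0 : ℝ) 1 :=
  ⟨le_min zero_le_one (add_nonneg (abs_nonneg _) (Finset.sum_nonneg fun _ _ => le_max_left _ _)),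
    min_le_left _ _⟩

/-- The matrices of the second sentences. -/
def f2 (r : ℝ) (n : ℕ) : Fm S₀ (n + 1) :=
  .con (n + 1) (u2 r n) (u2_cont r n) (fun x _ => u2_mem r n x)
    (Fin.cons (.pr () fun _ => 0) fun i : Fin n => .dst i.succ 0)

theorem val_f2 (M : MS S₀) (r : ℝ) (n : ℕ) (x : Fin n → M.X) (y : M.X) :
    val M (f2 r n) (Matrix.vecCons y x) =
      min 1 (|pv M y - r| + ∑ i : Fin n, max 0 (1 - dist (x i) y)) := by
  change u2 r n _ = _
  unfold u2
  congr 2

/-- The value of the predicate in `M₀`. -/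
theorem pv_M₀ (y : X₀) : pv M₀ y = (y.1 : ℝ) := rfl

theorem exists_new (n : ℕ) (x : Fin n → X₀) (t : Set.Icc (0 : ℝ) 1) :
    ∃ m : ℕ, ∀ i, ((t, m) : X₀) ≠ x i := by
  by_contra hne
  push Not at hne
  choose f hf using hne
  have hinj : Function.Injective f := by
    intro m m' h
    have h1 := hf m
    rw [h, ← hf m'] at h1
    exact congrArg Prod.snd h1
  exact not_injective_infinite_finite f hinj

theorem mem1 : supn 2 f1 ∈ T₀ := by
  change val M₀ _ ![] = 0
  rw [supn_eq_zero]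
  intro x
  change u1 (fun _ => dist (x 0) (x 1)) = 0
  unfold u1
  by_cases h : x 0 = x 1
  · rw [h, dist_self]
    norm_num
  · have h1 : dist (x 0) (x 1) = 1 := dist_X₀ h
    rw [h1]
    norm_num

theorem mem2 (r : ℝ) (hr : r ∈ Set.Icc (0 : ℝ) 1) (n : ℕ) : supn n (.inf (f2 r n)) ∈ T₀ := by
  change val M₀ _ ![] = 0
  rw [supn_eq_zero]
  intro x
  refine le_antisymm ?_ (val_mem M₀ _ _).1
  obtain ⟨m, hm⟩ := exists_new n x ⟨r, hr⟩
  have h1 : val M₀ (.inf (f2 r n)) x ≤ val M₀ (f2 r n)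
      (Matrix.vecCons (show M₀.X from ((⟨r, hr⟩, m) : X₀)) x) :=
    ciInf_le (f := fun y => val M₀ (f2 r n) (Matrix.vecCons y x))
      ⟨0, by rintro _ ⟨z, rfl⟩; exact (val_mem M₀ _ _).1⟩ _
  refine h1.trans ?_
  rw [val_f2]
  have h2 : ∀ i : Fin n, max 0 (1 - dist (x i) (show M₀.X from ((⟨r, hr⟩, m) : X₀))) = 0 := by
    intro i
    have h3 : dist (x i) (show M₀.X from ((⟨r, hr⟩, m) : X₀)) = 1 :=
      dist_X₀ (fun h => hm i h.symm)
    rw [h3, sub_self, max_self]
  rw [Finset.sum_congr rfl fun i _ => h2 i, Finset.sum_const_zero]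
  have h4 : pv M₀ (show M₀.X from ((⟨r, hr⟩, m) : X₀)) = r := rfl
  rw [h4, sub_self, abs_zero, add_zero]
  exact min_le_right _ _

end P_GD

open P_GD

/-- **GD** -/
theorem t_gd : S_GD := by
  intro N hN
  constructor
  · intro x y
    have h1 := (supn_eq_zero N 2 f1).1 (hN _ mem1) ![x, y]
    have h2 : u1 (fun _ => dist x y) = 0 := h1
    unfold u1 at h2
    have h3 : min (dist x y) (1 - dist x y) ≤ 0 := by
      rw [← h2]
      exact le_max_right _ _
    rcases min_le_iff.1 h3 with h4 | h4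
    · exact Or.inl (le_antisymm h4 dist_nonneg)
    · exact Or.inr (le_antisymm (N.diam x y) (by linarith))
  · intro n x r ε hr hε
    have h1 := (supn_eq_zero N n (.inf (f2 r n))).1 (hN _ (mem2 r hr n)) x
    have h2 : (⨅ y : N.X, val N (f2 r n) (Matrix.vecCons y x)) < min ε 1 := by
      have h3 : (⨅ y : N.X, val N (f2 r n) (Matrix.vecCons y x)) = 0 := h1
      rw [h3]
      exact lt_min hε one_pos
    obtain ⟨y, hy⟩ := exists_lt_of_ciInf_lt h2
    rw [val_f2] at hy
    have h4 : |pv N y - r| + ∑ i : Fin n, max 0 (1 - dist (x i) y) < min ε 1 := by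
      rcases min_lt_iff.1 hy with h5 | h5
      · exact absurd (h5.trans_le (min_le_right _ _)) (lt_irrefl _)
      · exact h5
    have h5 : ∀ i : Fin n, 0 ≤ max 0 (1 - dist (x i) y) := fun i => le_max_left _ _
    have h6 : 0 ≤ ∑ i : Fin n, max 0 (1 - dist (x i) y) := Finset.sum_nonneg fun i _ => h5 i
    refine ⟨y, fun i hi => ?_, ?_⟩
    · have h7 := Finset.single_le_sum (fun i _ => h5 i) (Finset.mem_univ i)
      have h8 : max 0 (1 - dist (x i) y) = 1 := by
        rw [hi, dist_self]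
        norm_num
      have h9 := h4.trans_le (min_le_right _ _)
      have h10 := abs_nonneg (pv N y - r)
      linarith
    · have h9 := h4.trans_le (min_le_left _ _)
      linarith

end Pool.Agent.N636.DD
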