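import Mathlib
import Pool.Agent.N636.DD.Stm

/-!
# No non-trivial d-definable sets
-/

set_option autoImplicit false

namespace Pool.Agent.N636.DD

namespace P_ND

theorem good : Good M₀ := by
  constructor
  · intro x y
    by_cases h : x = y
    · left
      rw [h]
      exact dist_self y
    · right
      exact dist_X₀ h
  · intro n x r ε hr hε
    let x' : Fin n → X₀ := x
    let m : ℕ := (∑ i, (x' i).2) + 1
    refine ⟨((⟨r, hr⟩, m) : X₀), fun i h => ?_, ?_⟩
    · have h1 : m = (x' i).2 := congrArg (fun z : X₀ => z.2) h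
      have h2 : (x' i).2 ≤ ∑ j, (x' j).2 :=
        Finset.single_le_sum (f := fun j => (x' j).2) (fun _ _ => Nat.zero_le _)
          (Finset.mem_univ i)
      omega
    · have h1 : pv M₀ ((⟨r, hr⟩, m) : X₀) = r := rfl
      rw [h1, sub_self, abs_zero]
      exact hε

theorem app {X : Type} (x : Fin 1 → X) (a : Fin 0 → X) : Fin.append x a = fun _ => x 0 := by
  funext i
  have h : i = Fin.castAdd 0 (0 : Fin 1) := by
    apply Fin.ext
    have := i.2
    simp only [Fin.val_castAdd]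
    omega
  rw [h, Fin.append_left]

theorem val_eq (hQE : S_QE) (φ : Fm S₀ (1 + 0)) : ∃ u : ℝ → ℝ, Continuous u ∧
    ∀ (x : Fin 1 → M₀.X) (a : Fin 0 → M₀.X), val M₀ φ (Fin.append x a) = u (pv M₀ (x 0)) := by
  obtain ⟨G, hG, hG'⟩ := hQE (1 + 0) φ (fun _ _ => True)
  refine ⟨fun r => G fun _ => r, hG.comp (continuous_pi fun _ => continuous_id), fun x a => ?_⟩
  rw [app x a]
  exact hG' M₀ good (fun _ => x 0) (fun i j => iff_of_true rfl trivial)

theorem dist_ne {x y : Fin 1 → M₀.X} (h : x ≠ y) : 1 ≤ dist x y := by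
  have h0 : x 0 ≠ y 0 := by
    intro h1
    apply h
    funext i
    rw [Subsingleton.elim i 0]
    exact h1
  have h1 : dist (x 0) (y 0) = 1 := dist_X₀ h0
  rw [← h1]
  exact dist_le_pi_dist x y 0

end P_ND

open P_ND in
/-- ND -/
theorem t_nd : S_QE → S_ND := by
  intro hQE D hD
  by_cases hne : D = ∅
  · exact Or.inl hne
  right
  have hDn : D.Nonempty := Set.nonempty_iff_ne_empty.2 hne
  have hdp : DPred M₀ ∅ fun x => Metric.infDist x D := hD.2.resolve_left hne
  obtain ⟨m, φ, a, ha, hφ⟩ := hdp (1 / 4) (by norm_num)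
  obtain rfl : m = 0 := by
    cases m with
    | zero => rfl
    | succ m => exact absurd (ha 0) (Set.notMem_empty _)
  obtain ⟨u, hu, hu'⟩ := val_eq hQE φ
  have hin : ∀ x ∈ D, u (pv M₀ (x 0)) ≤ 1 / 4 := by
    intro x hx
    have h1 := hφ x
    rw [hu' x a] at h1
    have h2 : Metric.infDist x D = 0 := Metric.infDist_zero_of_mem hx
    simp only [h2, zero_sub, abs_neg] at h1
    exact (le_abs_self _).trans h1
  have hout : ∀ x, x ∉ D → 3 / 4 ≤ u (pv M₀ (x 0)) := by
    intro x hx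
    have h1 := hφ x
    rw [hu' x a] at h1
    have h2 : 1 ≤ Metric.infDist x D := by
      rw [Metric.le_infDist hDn]
      intro y hy
      exact dist_ne (fun h => hx (h ▸ hy))
    have h3 := (abs_le.1 h1).2
    linarith
  have hpt : ∀ r ∈ Set.Icc (0 : ℝ) 1, u r ≤ 1 / 4 ∨ 3 / 4 ≤ u r := by
    intro r hr
    by_cases h : (fun _ => ((⟨r, hr⟩, 0) : X₀) : Fin 1 → M₀.X) ∈ D
    · exact Or.inl (hin _ h)
    · exact Or.inr (hout _ h)
  have hpm : ∀ x : Fin 1 → M₀.X, pv M₀ (x 0) ∈ Set.Icc (0 : ℝ) 1 := fun x =>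
    M₀.I_mem () (fun _ => x 0)
  rw [Set.eq_univ_iff_forall]
  intro y
  by_contra hy
  obtain ⟨x, hx⟩ := hDn
  have h1 := hin x hx
  have h2 := hout y hy
  have h3 : (1 / 2 : ℝ) ∈ Set.uIcc (u (pv M₀ (x 0))) (u (pv M₀ (y 0))) := by
    rw [Set.uIcc_of_le (by linarith)]
    exact ⟨by linarith, by linarith⟩
  obtain ⟨r, hr, hr'⟩ := intermediate_value_uIcc hu.continuousOn h3
  have hr1 : r ∈ Set.Icc (0 : ℝ) 1 := Set.uIcc_subset_Icc (hpm x) (hpm y) hr
  rcases hpt r hr1 with h | h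
  · rw [hr'] at h
    norm_num at h
  · rw [hr'] at h
    norm_num at h

end Pool.Agent.N636.DD
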