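import Mathlib
import Pool.Agent.N636.DD.Stm

/-!
# No order property (statement S_OP of project DD)

The iterated limits of a formula along a non-principal ultrafilter agree.
-/

set_option autoImplicit false

open Filter Topology

namespace Pool.Agent.N636.DD

namespace P_OP

/-- for an equality, the two orders of the ultrafilter quantifiers agree -/
lemma swap {X : Type} (U : Ultrafilter ℕ) (a b : ℕ → X) :
    (∀ᶠ i in (U : Filter ℕ), ∀ᶠ j in (U : Filter ℕ), a i = b j) ↔
      ∀ᶠ j in (U : Filter ℕ), ∀ᶠ i in (U : Filter ℕ), a i = b j := by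
  have key : ∀ a b : ℕ → X, (∀ᶠ i in (U : Filter ℕ), ∀ᶠ j in (U : Filter ℕ), a i = b j) →
      ∀ᶠ j in (U : Filter ℕ), ∀ᶠ i in (U : Filter ℕ), a i = b j := by
    intro a b h
    obtain ⟨i, hi⟩ := h.exists
    have h2 : ∀ᶠ i' in (U : Filter ℕ), a i' = a i := by
      filter_upwards [h] with i' hi'
      obtain ⟨j, hj1, hj2⟩ := (hi.and hi').exists
      rw [hj2, hj1]
    filter_upwards [hi] with j hj
    filter_upwards [h2] with i' hi'
    rw [hi', hj]
  refine ⟨key a b, fun h => ?_⟩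
  have h3 := key b a (h.mono fun j hj => hj.mono fun i hi => hi.symm)
  exact h3.mono fun i hi => hi.mono fun j hj => hj.symm

lemma swap_append {X : Type} (U : Ultrafilter ℕ) {k l : ℕ} (a : ℕ → Fin k → X)
    (b : ℕ → Fin l → X) (u v : Fin (k + l)) :
    (∀ᶠ i in (U : Filter ℕ), ∀ᶠ j in (U : Filter ℕ),
        Fin.append (a i) (b j) u = Fin.append (a i) (b j) v) ↔
      ∀ᶠ j in (U : Filter ℕ), ∀ᶠ i in (U : Filter ℕ),
        Fin.append (a i) (b j) u = Fin.append (a i) (b j) v := by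
  induction u using Fin.addCases with
  | left s =>
    induction v using Fin.addCases with
    | left s' => simp
    | right t =>
      simp only [Fin.append_left, Fin.append_right]
      exact swap U (fun i => a i s) (fun j => b j t)
  | right t =>
    induction v using Fin.addCases with
    | left s =>
      simp only [Fin.append_left, Fin.append_right]
      have h := swap U (fun i => a i s) (fun j => b j t)
      simp only [eq_comm] at h ⊢
      exact h
    | right t' => simp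

lemma ult_not (U : Ultrafilter ℕ) (p : ℕ → ℕ → Prop)
    (h : ¬ ∀ᶠ i in (U : Filter ℕ), ∀ᶠ j in (U : Filter ℕ), p i j) :
    ∀ᶠ i in (U : Filter ℕ), ∀ᶠ j in (U : Filter ℕ), ¬ p i j := by
  have h1 := Ultrafilter.eventually_not.2 h
  exact h1.mono fun i hi => Ultrafilter.eventually_not.2 hi

lemma pattern {X : Type} (U : Ultrafilter ℕ) {k l : ℕ} (a : ℕ → Fin k → X)
    (b : ℕ → Fin l → X) : ∃ E : Fin (k + l) → Fin (k + l) → Prop,
    (∀ᶠ i in (U : Filter ℕ), ∀ᶠ j in (U : Filter ℕ), ∀ u v,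
        (Fin.append (a i) (b j) u = Fin.append (a i) (b j) v ↔ E u v)) ∧
      ∀ᶠ j in (U : Filter ℕ), ∀ᶠ i in (U : Filter ℕ), ∀ u v,
        (Fin.append (a i) (b j) u = Fin.append (a i) (b j) v ↔ E u v) := by
  refine ⟨fun u v => ∀ᶠ i in (U : Filter ℕ), ∀ᶠ j in (U : Filter ℕ),
        Fin.append (a i) (b j) u = Fin.append (a i) (b j) v, ?_, ?_⟩
  · simp only [eventually_all]
    intro u v
    by_cases h : ∀ᶠ i in (U : Filter ℕ), ∀ᶠ j in (U : Filter ℕ),
        Fin.append (a i) (b j) u = Fin.append (a i) (b j) v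
    · exact h.mono fun i hi => hi.mono fun j hj => ⟨fun _ => h, fun _ => hj⟩
    · exact (ult_not U _ h).mono fun i hi => hi.mono fun j hj =>
        ⟨fun h1 => absurd h1 hj, fun h1 => absurd h1 h⟩
  · simp only [eventually_all]
    intro u v
    by_cases h : ∀ᶠ i in (U : Filter ℕ), ∀ᶠ j in (U : Filter ℕ),
        Fin.append (a i) (b j) u = Fin.append (a i) (b j) v
    · have h' := (swap_append U a b u v).1 h
      exact h'.mono fun i hi => hi.mono fun j hj => ⟨fun _ => h, fun _ => hj⟩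
    · have h' := fun h2 => h ((swap_append U a b u v).2 h2)
      exact (ult_not U _ h').mono fun i hi => hi.mono fun j hj =>
        ⟨fun h1 => absurd h1 hj, fun h1 => absurd h1 h⟩

lemma lim (U : Ultrafilter ℕ) (f : ℕ → ℝ) (hf : ∀ i, f i ∈ Set.Icc (0 : ℝ) 1) :
    ∃ x : ℝ, Tendsto f (U : Filter ℕ) (𝓝 x) := by
  obtain ⟨x, -, hx⟩ := (isCompact_Icc (a := (0 : ℝ)) (b := 1)).ultrafilter_le_nhds (U.map f)
    (by
      rw [le_principal_iff]
      exact Filter.mem_map.2 (Filter.univ_mem' hf))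
  exact ⟨x, hx⟩

lemma pv_mem (N : MS S₀) (x : N.X) : pv N x ∈ Set.Icc (0 : ℝ) 1 := N.I_mem _ _

lemma near (N : MS S₀) (U : Ultrafilter ℕ) {k l : ℕ} (a : ℕ → Fin k → N.X)
    (b : ℕ → Fin l → N.X) : ∃ L : Fin (k + l) → ℝ, ∀ δ : ℝ, 0 < δ →
    (∀ᶠ i in (U : Filter ℕ), ∀ᶠ j in (U : Filter ℕ), ∀ u,
        dist (pv N (Fin.append (a i) (b j) u)) (L u) < δ) ∧
      ∀ᶠ j in (U : Filter ℕ), ∀ᶠ i in (U : Filter ℕ), ∀ u,
        dist (pv N (Fin.append (a i) (b j) u)) (L u) < δ := by
  choose α hα using fun s => lim U (fun i => pv N (a i s)) (fun i => pv_mem N _)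
  choose β hβ using fun t => lim U (fun j => pv N (b j t)) (fun j => pv_mem N _)
  refine ⟨Fin.append α β, fun δ hδ => ?_⟩
  simp only [eventually_all]
  have hA : ∀ s, ∀ᶠ i in (U : Filter ℕ), dist (pv N (a i s)) (α s) < δ := fun s =>
    (Metric.tendsto_nhds.1 (hα s)) δ hδ
  have hB : ∀ t, ∀ᶠ j in (U : Filter ℕ), dist (pv N (b j t)) (β t) < δ := fun t =>
    (Metric.tendsto_nhds.1 (hβ t)) δ hδ
  constructor
  · intro u
    induction u using Fin.addCases with
    | left s => simpa using hA s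
    | right t => simpa using hB t
  · intro u
    induction u using Fin.addCases with
    | left s => simpa using hA s
    | right t => simpa using hB t

/-- the iterated limits agree -/
lemma iter (hQE : S_QE) (N : MS S₀) (hN : Good N) (U : Ultrafilter ℕ) {k l : ℕ}
    (φ : Fm S₀ (k + l)) (a : ℕ → Fin k → N.X) (b : ℕ → Fin l → N.X) :
    ∃ c : ℝ, ∀ ε : ℝ, 0 < ε →
    (∀ᶠ i in (U : Filter ℕ), ∀ᶠ j in (U : Filter ℕ),
        |val N φ (Fin.append (a i) (b j)) - c| < ε) ∧
      ∀ᶠ j in (U : Filter ℕ), ∀ᶠ i in (U : Filter ℕ),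
        |val N φ (Fin.append (a i) (b j)) - c| < ε := by
  obtain ⟨E, hE1, hE2⟩ := pattern U a b
  obtain ⟨L, hL⟩ := near N U a b
  obtain ⟨G, hG, hval⟩ := hQE (k + l) φ E
  refine ⟨G L, fun ε hε => ?_⟩
  obtain ⟨δ, hδ, h⟩ := Metric.continuous_iff.1 hG L ε hε
  obtain ⟨h1, h2⟩ := hL δ hδ
  have key : ∀ i j, (∀ u v, (Fin.append (a i) (b j) u = Fin.append (a i) (b j) v ↔ E u v)) →
      (∀ u, dist (pv N (Fin.append (a i) (b j) u)) (L u) < δ) →
      |val N φ (Fin.append (a i) (b j)) - G L| < ε := by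
    intro i j he hd
    rw [hval N hN _ he, ← Real.dist_eq]
    exact h _ ((dist_pi_lt_iff hδ).2 hd)
  constructor
  · filter_upwards [hE1, h1] with i hi1 hi2
    filter_upwards [hi1, hi2] with j hj1 hj2
    exact key i j hj1 hj2
  · filter_upwards [hE2, h2] with j hi1 hi2
    filter_upwards [hi1, hi2] with i hj1 hj2
    exact key i j hj1 hj2

end P_OP

open P_OP in
/-- OP: no order property -/
theorem t_op : S_GD → S_QE → S_OP := by
  intro hGD hQE M hM k l φ ε hε
  rintro ⟨a, b, hab⟩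
  obtain ⟨c, hc⟩ := iter hQE M (hGD M hM) (hyperfilter ℕ) φ a b
  obtain ⟨h1, h2⟩ := hc (ε / 2) (by positivity)
  have hgt : ∀ i : ℕ, ∀ᶠ j in (hyperfilter ℕ : Filter ℕ), i < j := fun i =>
    (eventually_gt_atTop i).filter_mono Nat.hyperfilter_le_atTop
  obtain ⟨i, hi1, hi2⟩ := (h1.and h2).exists
  obtain ⟨j, ⟨hj1, hj2⟩, hij⟩ := ((hi1.and hi2).and (hgt i)).exists
  have h3 := hab i j hij
  have h4 : |val M φ (Fin.append (a i) (b j)) - val M φ (Fin.append (a j) (b i))| ≤
      |val M φ (Fin.append (a i) (b j)) - c| + |val M φ (Fin.append (a j) (b i)) - c| := by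
    rw [abs_sub_comm (val M φ (Fin.append (a j) (b i))) c]
    exact abs_sub_le _ _ _
  linarith

end Pool.Agent.N636.DD
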