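import Mathlib
import Pool.Agent.N636.DD.Stm

/-!
# QE: quantifier elimination
-/

set_option autoImplicit false

namespace Pool.Agent.N636.DD

namespace P_QE

/-- the values are in `[0,1]` -/
theorem val_mem {S : Sig} (M : MS S) {k : ℕ} (φ : Fm S k) :
    ∀ x : Fin k → M.X, val M φ x ∈ Set.Icc (0 : ℝ) 1 := by
  induction φ with
  | dst i j => exact fun x => ⟨dist_nonneg, M.diam _ _⟩
  | pr P f => exact fun x => M.I_mem _ _
  | con n u hu hI φ ih => exact fun x => hI _ fun i => ih i x
  | sup φ ih =>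
    intro x
    refine ⟨?_, ciSup_le fun y => (ih _).2⟩
    refine le_ciSup_of_le ⟨1, ?_⟩ (Classical.arbitrary M.X) (ih _).1
    rintro _ ⟨y, rfl⟩
    exact (ih _).2
  | inf φ ih =>
    intro x
    refine ⟨le_ciInf fun y => (ih _).1, ?_⟩
    refine ciInf_le_of_le ⟨0, ?_⟩ (Classical.arbitrary M.X) (ih _).2
    rintro _ ⟨y, rfl⟩
    exact (ih _).1

theorem pv_mem (N : MS S₀) (y : N.X) : pv N y ∈ Set.Icc (0 : ℝ) 1 := N.I_mem _ _

/-- quantifier elimination for one formula and one pattern -/
def Q {k : ℕ} (φ : Fm S₀ k) (E : Fin k → Fin k → Prop) : Prop :=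
  ∃ G : (Fin k → ℝ) → ℝ, Continuous G ∧ ∀ N : MS S₀, Good N → ∀ x : Fin k → N.X,
    (∀ i j, x i = x j ↔ E i j) → val N φ x = G fun i => pv N (x i)

theorem q_dst {k : ℕ} (i j : Fin k) (E : Fin k → Fin k → Prop) : Q (Fm.dst i j) E := by
  by_cases h : E i j
  · refine ⟨fun _ => 0, continuous_const, fun N _ x hx => ?_⟩
    change dist (x i) (x j) = 0
    rw [(hx i j).2 h, dist_self]
  · refine ⟨fun _ => 1, continuous_const, fun N hN x hx => ?_⟩
    change dist (x i) (x j) = 1
    rcases hN.1 (x i) (x j) with h0 | h1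
    · exact absurd ((hx i j).1 (dist_eq_zero.1 h0)) h
    · exact h1

theorem q_pr {k : ℕ} (P : S₀.Pr) (f : Fin (S₀.ar P) → Fin k) (E : Fin k → Fin k → Prop) :
    Q (Fm.pr P f) E := by
  refine ⟨fun v => v (f (0 : Fin 1)), continuous_apply _, fun N _ x _ => ?_⟩
  change N.I P (fun i => x (f i)) = N.I () fun _ => x (f (0 : Fin 1))
  congr 1
  funext i
  have : i = (0 : Fin 1) := Subsingleton.elim (α := Fin 1) _ _
  rw [this]

theorem q_con {k : ℕ} (n : ℕ) (u : (Fin n → ℝ) → ℝ) (hu : Continuous u)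
    (hI : ∀ x, (∀ i, x i ∈ Set.Icc (0 : ℝ) 1) → u x ∈ Set.Icc (0 : ℝ) 1)
    (φ : Fin n → Fm S₀ k) (E : Fin k → Fin k → Prop) (ih : ∀ i, Q (φ i) E) :
    Q (Fm.con n u hu hI φ) E := by
  choose G hG hv using ih
  refine ⟨fun v => u fun i => G i v, hu.comp (continuous_pi fun i => hG i), fun N hN x hx => ?_⟩
  change u (fun i => val N (φ i) x) = _
  congr 1
  funext i
  exact hv i N hN x hx

/-- the pattern of `(y, x)` for new `y` -/
def New {k : ℕ} (E : Fin k → Fin k → Prop) (a b : Fin (k + 1)) : Prop :=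
  (a = 0 ∧ b = 0) ∨ ∃ i j : Fin k, a = i.succ ∧ b = j.succ ∧ E i j

theorem new_iff {k : ℕ} (E : Fin k → Fin k → Prop) (N : MS S₀) (x : Fin k → N.X)
    (hx : ∀ i j, x i = x j ↔ E i j) (y : N.X) (hy : ∀ i, y ≠ x i) (a b : Fin (k + 1)) :
    Matrix.vecCons y x a = Matrix.vecCons y x b ↔ New E a b := by
  refine Fin.cases ?_ (fun i => ?_) a <;> refine Fin.cases ?_ (fun j => ?_) b
  · simp [New]
  · simp only [Matrix.cons_val_zero, Matrix.cons_val_succ]
    constructor
    · intro h
      exact absurd h (hy j)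
    · rintro (⟨_, h⟩ | ⟨i', j', h, _⟩)
      · exact absurd h (Fin.succ_ne_zero j)
      · exact absurd h.symm (Fin.succ_ne_zero i')
  · simp only [Matrix.cons_val_zero, Matrix.cons_val_succ]
    constructor
    · intro h
      exact absurd h.symm (hy i)
    · rintro (⟨h, _⟩ | ⟨i', j', _, h, _⟩)
      · exact absurd h (Fin.succ_ne_zero i)
      · exact absurd h.symm (Fin.succ_ne_zero j')
  · simp only [Matrix.cons_val_succ, hx]
    constructor
    · intro h
      exact Or.inr ⟨i, j, rfl, rfl, h⟩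
    · rintro (⟨h, _⟩ | ⟨i', j', h, h', hE⟩)
      · exact absurd h (Fin.succ_ne_zero i)
      · rw [Fin.succ_injective _ h, Fin.succ_injective _ h']
        exact hE

theorem cons_self {k : ℕ} {A : Type} (x : Fin k → A) (i : Fin k) (a : Fin (k + 1)) :
    Matrix.vecCons (x i) x a = x (Matrix.vecCons i id a) := by
  refine Fin.cases ?_ (fun j => ?_) a <;> simp

theorem q_sup {k : ℕ} (φ : Fm S₀ (k + 1)) (ih : ∀ E, Q φ E) (E : Fin k → Fin k → Prop) :
    Q (Fm.sup φ) E := by
  classical
  obtain ⟨Gn, hGn, hvn⟩ := ih (New E)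
  choose G hG hv using fun i : Fin k =>
    ih (fun a b => E (Matrix.vecCons i id a) (Matrix.vecCons i id b))
  have hcn : Continuous fun p : (Fin k → ℝ) × ℝ => Gn (Matrix.vecCons p.2 p.1) := by
    refine hGn.comp (continuous_pi fun a => ?_)
    refine Fin.cases ?_ (fun j => ?_) a
    · exact continuous_snd
    · exact (continuous_apply j).comp continuous_fst
  obtain ⟨H, hH⟩ : ∃ H : Option (Fin k) → (Fin k → ℝ) → ℝ, H = fun o v => match o with
      | none => sSup ((fun r : ℝ => Gn (Matrix.vecCons r v)) '' Set.Icc (0 : ℝ) 1)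
      | some i => G i fun a => v (Matrix.vecCons i id a) := ⟨_, rfl⟩
  have hn : ∀ v, H none v = sSup ((fun r : ℝ => Gn (Matrix.vecCons r v)) '' Set.Icc (0 : ℝ) 1) := by
    intro v; rw [hH]
  have hs : ∀ i v, H (some i) v = G i fun a => v (Matrix.vecCons i id a) := by
    intro i v; rw [hH]
  refine ⟨fun v => Finset.univ.sup' ⟨none, Finset.mem_univ _⟩ fun o => H o v, ?_, ?_⟩
  · refine Continuous.finset_sup'_apply _ fun o _ => ?_
    rcases o with _ | i
    · have : H none = fun v => sSup ((fun r : ℝ => Gn (Matrix.vecCons r v)) '' Set.Icc (0 : ℝ) 1) :=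
        funext hn
      rw [this]
      exact IsCompact.continuous_sSup (f := fun (v : Fin k → ℝ) (r : ℝ) => Gn (Matrix.vecCons r v))
        isCompact_Icc hcn
    · have : H (some i) = fun v => G i fun a => v (Matrix.vecCons i id a) := funext (hs i)
      rw [this]
      exact (hG i).comp (continuous_pi fun a => continuous_apply _)
  · intro N hN x hx
    have hbdd : BddAbove (Set.range fun y : N.X => val N φ (Matrix.vecCons y x)) := by
      refine ⟨1, ?_⟩
      rintro _ ⟨y, rfl⟩
      exact (val_mem N φ _).2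
    have hold : ∀ i, val N φ (Matrix.vecCons (x i) x) = H (some i) fun j => pv N (x j) := by
      intro i
      rw [hs, hv i N hN]
      · congr 1
        funext a
        rw [cons_self]
      · intro a b
        rw [cons_self, cons_self]
        exact hx _ _
    have hnew : ∀ y, (∀ i, y ≠ x i) → val N φ (Matrix.vecCons y x) =
        Gn (Matrix.vecCons (pv N y) fun j => pv N (x j)) := by
      intro y hy
      rw [hvn N hN _ (new_iff E N x hx y hy)]
      congr 1
      funext a
      refine Fin.cases ?_ (fun j => ?_) a <;> simp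
    have hcr : Continuous fun r : ℝ => Gn (Matrix.vecCons r fun j => pv N (x j)) :=
      hcn.comp (continuous_const.prodMk continuous_id)
    have hb2 : BddAbove ((fun r : ℝ => Gn (Matrix.vecCons r fun j => pv N (x j))) ''
        Set.Icc (0 : ℝ) 1) := (isCompact_Icc.image hcr).bddAbove
    change (⨆ y : N.X, val N φ (Matrix.vecCons y x)) = _
    apply le_antisymm
    · refine ciSup_le fun y => ?_
      by_cases hy : ∃ i, y = x i
      · obtain ⟨i, rfl⟩ := hy
        rw [hold i]
        exact Finset.le_sup' (fun o => H o fun j => pv N (x j)) (Finset.mem_univ (some i))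
      · push Not at hy
        rw [hnew y hy]
        refine le_trans ?_
          (Finset.le_sup' (fun o => H o fun j => pv N (x j)) (Finset.mem_univ none))
        rw [hn]
        exact le_csSup hb2 ⟨pv N y, pv_mem N y, rfl⟩
    · refine Finset.sup'_le _ _ fun o _ => ?_
      rcases o with _ | i
      · rw [hn]
        refine csSup_le ⟨_, ⟨0, by simp, rfl⟩⟩ ?_
        rintro _ ⟨r, hr, rfl⟩
        refine le_of_forall_pos_le_add fun δ hδ => ?_
        obtain ⟨ε, hε, hc⟩ := Metric.continuous_iff.1 hcr r δ hδ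
        obtain ⟨y, hy, hyr⟩ := hN.2 k x r ε hr hε
        have h1 := hc (pv N y) (by rwa [Real.dist_eq])
        rw [Real.dist_eq, ← hnew y hy] at h1
        have h2 : val N φ (Matrix.vecCons y x) ≤ ⨆ y : N.X, val N φ (Matrix.vecCons y x) :=
          le_ciSup hbdd y
        have h3 := (abs_lt.1 h1).1
        change Gn (Matrix.vecCons r fun j => pv N (x j)) ≤ _
        linarith
      · rw [← hold i]
        exact le_ciSup hbdd (x i)

/-- `1 - φ` -/
noncomputable def neg {k : ℕ} (φ : Fm S₀ k) : Fm S₀ k :=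
  Fm.con 1 (fun z => 1 - z 0) (continuous_const.sub (continuous_apply 0))
    (fun x hx => ⟨by have := (hx 0).2; linarith, by have := (hx 0).1; linarith⟩) fun _ => φ

theorem q_inf {k : ℕ} (φ : Fm S₀ (k + 1)) (ih : ∀ E, Q φ E) (E : Fin k → Fin k → Prop) :
    Q (Fm.inf φ) E := by
  obtain ⟨G, hG, hv⟩ := q_sup (neg φ) (fun E' => q_con _ _ _ _ _ _ fun _ => ih E') E
  refine ⟨fun v => 1 - G v, continuous_const.sub hG, fun N hN x hx => ?_⟩
  change val N φ.inf x = 1 - G fun i => pv N (x i)
  rw [← hv N hN x hx]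
  change (⨅ y : N.X, val N φ (Matrix.vecCons y x)) =
    1 - ⨆ y : N.X, (1 - val N φ (Matrix.vecCons y x))
  have hb1 : BddBelow (Set.range fun y : N.X => val N φ (Matrix.vecCons y x)) := by
    refine ⟨0, ?_⟩
    rintro _ ⟨y, rfl⟩
    exact (val_mem N φ _).1
  have hb2 : BddAbove (Set.range fun y : N.X => 1 - val N φ (Matrix.vecCons y x)) := by
    refine ⟨1, ?_⟩
    rintro _ ⟨y, rfl⟩
    have := (val_mem N φ (Matrix.vecCons y x)).1
    change 1 - val N φ (Matrix.vecCons y x) ≤ 1
    linarith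
  apply le_antisymm
  · have : (⨆ y : N.X, (1 - val N φ (Matrix.vecCons y x))) ≤
        1 - ⨅ y : N.X, val N φ (Matrix.vecCons y x) := by
      refine ciSup_le fun y => ?_
      have := ciInf_le hb1 y
      linarith
    linarith
  · refine le_ciInf fun y => ?_
    have := le_ciSup hb2 y
    change 1 - val N φ (Matrix.vecCons y x) ≤ _ at this
    linarith

end P_QE

/-- **QE.** -/
theorem t_qe : S_QE := by
  intro k φ
  induction φ with
  | dst i j => exact fun E => P_QE.q_dst i j E
  | pr P f => exact fun E => P_QE.q_pr P f E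
  | con n u hu hI φ ih => exact fun E => P_QE.q_con n u hu hI φ E fun i => ih i E
  | sup φ ih => exact fun E => P_QE.q_sup φ ih E
  | inf φ ih => exact fun E => P_QE.q_inf φ ih E

end Pool.Agent.N636.DD
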