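import Mathlib
import Pool.Agent.N636.DD.Stm
import Pool.Agent.N636.DD.P_GD
import Pool.Agent.N636.DD.P_QE
import Pool.Agent.N636.DD.P_OP
import Pool.Agent.N636.DD.P_FT
import Pool.Agent.N636.DD.P_ND
import Pool.Agent.N636.DD.P_ASM

set_option autoImplicit false

open Cardinal

namespace Pool.Agent.N636.DD

theorem main : ∃ (S : Sig) (T : Set (Fm S 0)), Stable T ∧
    (∀ lam : Cardinal.{0}, 2 ^ ℵ₀ ≤ lam → FewTypes T lam) ∧
    ∃ M : MS S, IsModel T M ∧ ∃ b : Fin 1 → M.X,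
      ∀ F : Set (Set (Fin 1 → M.X)), (∀ D ∈ F, DDef M ∅ D) →
        {x | SameType M ∅ x b} ≠ ⋂₀ F :=
  t_asm t_gd t_qe (t_op t_gd t_qe) (t_ft t_gd t_qe) (t_nd t_qe)

end Pool.Agent.N636.DD
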